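import Pool.Agent.Q104.BD.Main

/-! MP_e7fd15_co: for `k ≥ 256` every finite graph of arboricity `k` is the edge-disjoint union of
`2 k - 1` forests whose components have diameter at most four.  So the answer to Q1 is no. -/

set_option autoImplicit false

namespace Pool.Agent.Results.MP_e7fd15_co.NotSharp

/-- The forests `F 0, …, F (m-1)` partition the edge set of `G`. -/
def IsPartition {V : Type} (G : SimpleGraph V) (m : ℕ) (F : Fin m → SimpleGraph V) : Prop :=
  (∀ i, F i ≤ G) ∧ ∀ u v, G.Adj u v → ∃! i, (F i).Adj u v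

/-- The arboricity `a_∞(G)`: the least number of forests whose edge sets partition the edge set. -/
noncomputable def arboricity {V : Type} (G : SimpleGraph V) : ℕ :=
  sInf {m : ℕ | ∃ F : Fin m → SimpleGraph V, IsPartition G m F ∧ ∀ i, (F i).IsAcyclic}

/-- `a_d(G)`: the same with forests all of whose components have diameter at most `d`. -/
noncomputable def diamArboricity {V : Type} (d : ℕ) (G : SimpleGraph V) : ℕ :=
  sInf {m : ℕ | ∃ F : Fin m → SimpleGraph V, IsPartition G m F ∧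
    ∀ i, (F i).IsAcyclic ∧ ∀ u v, (F i).Reachable u v → (F i).dist u v ≤ d}

/-- For all `k ≥ 256` and `d ≥ 4` every finite graph of arboricity `k` has `a_d(G) ≤ 2 k - 1`; hence
there is no `d ≥ 4` such that for every `k ≥ 1` some graph has `a_∞(G) = k` and `a_d(G) = 2 k`. -/
theorem result :
    (∀ (k d : ℕ), 256 ≤ k → 4 ≤ d → ∀ (V : Type) [Finite V] (G : SimpleGraph V),
      arboricity G = k →
      (∃ F : Fin (2 * k - 1) → SimpleGraph V, IsPartition G (2 * k - 1) F ∧
        ∀ i, (F i).IsAcyclic ∧ ∀ u v, (F i).Reachable u v → (F i).dist u v ≤ 4) ∧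
      diamArboricity d G ≤ 2 * k - 1) ∧
    ¬ ∃ d : ℕ, 4 ≤ d ∧ ∀ k : ℕ, 1 ≤ k → ∃ (V : Type) (_ : Finite V) (G : SimpleGraph V),
      arboricity G = k ∧ diamArboricity d G = 2 * k := by
  have key : ∀ (k d : ℕ), 256 ≤ k → 4 ≤ d → ∀ (V : Type) [Finite V] (G : SimpleGraph V),
      arboricity G = k →
      (∃ F : Fin (2 * k - 1) → SimpleGraph V, IsPartition G (2 * k - 1) F ∧
        ∀ i, (F i).IsAcyclic ∧ ∀ u v, (F i).Reachable u v → (F i).dist u v ≤ 4) ∧
      diamArboricity d G ≤ 2 * k - 1 := by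
    intro k d hk hd V _ G hG
    have : Fintype V := Fintype.ofFinite V
    have hne : {m : ℕ | ∃ F : Fin m → SimpleGraph V, IsPartition G m F ∧
        ∀ i, (F i).IsAcyclic}.Nonempty := by
      apply Nat.nonempty_of_pos_sInf
      change 0 < arboricity G
      omega
    obtain ⟨h, hA, hB, hC⟩ := Pool.Agent.Q104.BD.params k hk
    have hGk : sInf {m : ℕ | ∃ F : Fin m → SimpleGraph V, IsPartition G m F ∧
        ∀ i, (F i).IsAcyclic} = k := hG
    have hmain : ∃ F : Fin k → SimpleGraph V, IsPartition G k F ∧ ∀ i, (F i).IsAcyclic := by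
      have h1 := Nat.sInf_mem hne
      rw [hGk] at h1
      exact h1
    obtain ⟨F', hF1', hF2'⟩ := hmain
    obtain ⟨T, hT1, hT2, hT3⟩ := Pool.Agent.Q104.BD.main G k h F' hF2' hF1'.1
      (fun u v huv => (hF1'.2 u v huv).exists) hA hB hC
    refine ⟨⟨T, ⟨hT1, hT2⟩, hT3⟩, Nat.sInf_le ⟨T, ⟨hT1, hT2⟩, fun i => ⟨(hT3 i).1,
      fun u v huv => ((hT3 i).2 u v huv).trans hd⟩⟩⟩
  refine ⟨key, ?_⟩
  rintro ⟨d, hd, h⟩
  obtain ⟨V, hV, G, h1, h2⟩ := h 256 (by norm_num)
  have h3 := (key 256 d le_rfl hd V G h1).2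
  omega

end Pool.Agent.Results.MP_e7fd15_co.NotSharp
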